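import Pool.Agent.H16.TO.Targets

/-!
# Models on `Fin n` and models on initial segments of `ℕ`
-/

set_option autoImplicit false

namespace Pool.Agent.H3.TW

open Pool.Agent.H16.TO

theorem br_sat {n : ℕ} (P : ℕ → ℕ → Prop) (R : ℕ → ℕ → ℕ → Prop) (φ : C2) :
    ∀ s : Bool → Fin n, φ.Sat (A := Fin n) (fun i a => P i a.val) (fun i a b => R i a.val b.val) s ↔
      φ.SatN n P R (fun w => (s w).val) := by
  induction φ with
  | un i v => intro s; exact Iff.rfl
  | bi i v w => intro s; exact Iff.rfl
  | eq v w => intro s; exact Fin.ext_iff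
  | neg φ ih => intro s; exact not_congr (ih s)
  | and φ ψ ih1 ih2 => intro s; exact and_congr (ih1 s) (ih2 s)
  | cnt k v φ ih =>
    intro s
    have h1 : {a : ℕ | a < n ∧ φ.SatN n P R (Function.update (fun w => (s w).val) v a)} =
        Fin.val '' {a : Fin n | φ.Sat (A := Fin n) (fun i a => P i a.val)
          (fun i a b => R i a.val b.val) (Function.update s v a)} := by
      ext a
      simp only [Set.mem_ofPred_eq, Set.mem_image]
      have h2 : ∀ a : Fin n, (fun w => (Function.update s v a w).val) =
          Function.update (fun w => (s w).val) v a.val := by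
        intro a
        funext w
        by_cases hw : w = v
        · subst hw
          simp
        · simp [Function.update_of_ne hw]
      constructor
      · rintro ⟨ha, h⟩
        refine ⟨⟨a, ha⟩, ?_, rfl⟩
        rw [ih, h2]
        exact h
      · rintro ⟨b, hb, rfl⟩
        refine ⟨b.isLt, ?_⟩
        rw [ih, h2] at hb
        exact hb
    change k ≤ Set.ncard _ ↔ k ≤ Set.ncard _
    rw [h1, Set.ncard_image_of_injective _ Fin.val_injective]

theorem br_ord {n : ℕ} (r : ℕ → ℕ → Prop) :
    IsStrictTotalOrder (Fin n) (fun a b => r a.val b.val) ↔ STOn n r := by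
  constructor
  · intro h
    refine ⟨?_, ?_, ?_⟩
    · intro a ha hr
      exact h.toIsStrictOrder.toIrrefl.irrefl ⟨a, ha⟩ hr
    · intro a ha b hb c hc hab hbc
      exact h.toIsStrictOrder.toIsTrans.trans ⟨a, ha⟩ ⟨b, hb⟩ ⟨c, hc⟩ hab hbc
    · intro a ha b hb hne
      by_contra hcon
      push Not at hcon
      have := h.toTrichotomous.trichotomous ⟨a, ha⟩ ⟨b, hb⟩ hcon.1 hcon.2
      exact hne (Fin.ext_iff.1 this)
  · rintro ⟨h1, h2, h3⟩
    exact
      { irrefl := fun a => h1 a.val a.isLt
        trans := fun a b c hab hbc => h2 a.val a.isLt b.val b.isLt c.val c.isLt hab hbc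
        trichotomous := fun a b hab hba => by
          by_contra hne
          rcases h3 a.val a.isLt b.val b.isLt (fun h => hne (Fin.ext h)) with h | h
          · exact hab h
          · exact hba h }

theorem pf_br : T_BR := by
  classical
  intro l φ n
  constructor
  · rintro ⟨hn, P, R, hR, hs⟩
    refine ⟨hn, fun i a => ∃ h : a < n, P i ⟨a, h⟩,
      fun i a b => ∃ (ha : a < n) (hb : b < n), R i ⟨a, ha⟩ ⟨b, hb⟩, ?_, ?_⟩
    · intro j hj
      rw [← br_ord]
      have h1 : (fun a b : Fin n => ∃ (ha : a.val < n) (hb : b.val < n), R j ⟨a.val, ha⟩ ⟨b.val, hb⟩)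
          = R j := by
        funext a b
        apply propext
        constructor
        · rintro ⟨_, _, h⟩
          exact h
        · intro h
          exact ⟨a.isLt, b.isLt, h⟩
      rw [h1]
      exact hR j hj
    · intro s hsn
      have h1 := hs (fun w => ⟨s w, hsn w⟩)
      have hP : (fun (i : ℕ) (a : Fin n) => ∃ h : a.val < n, P i ⟨a.val, h⟩) = P := by
        funext i a
        apply propext
        constructor
        · rintro ⟨_, h⟩
          exact h
        · intro h
          exact ⟨a.isLt, h⟩
      have hR' : (fun (i : ℕ) (a b : Fin n) => ∃ (ha : a.val < n) (hb : b.val < n),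
          R i ⟨a.val, ha⟩ ⟨b.val, hb⟩) = R := by
        funext i a b
        apply propext
        constructor
        · rintro ⟨_, _, h⟩
          exact h
        · intro h
          exact ⟨a.isLt, b.isLt, h⟩
      have h2 := (br_sat (n := n) (fun i a => ∃ h : a < n, P i ⟨a, h⟩)
        (fun i a b => ∃ (ha : a < n) (hb : b < n), R i ⟨a, ha⟩ ⟨b, hb⟩) φ
        (fun w => ⟨s w, hsn w⟩)).1
      apply h2
      rw [hP, hR']
      exact h1
  · rintro ⟨hn, P, R, hR, hs⟩
    refine ⟨hn, fun i a => P i a.val, fun i a b => R i a.val b.val, ?_, ?_⟩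
    · intro j hj
      exact (br_ord (R j)).2 (hR j hj)
    · intro s
      exact (br_sat P R φ s).2 (hs _ (fun w => (s w).isLt))

end Pool.Agent.H3.TW
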