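import Pool.Agent.H16.TO.Targets

/-!
# Keys of a strict linear order on an initial segment
-/

set_option autoImplicit false

namespace Pool.Agent.H3.TW

open Pool.Agent.H16.TO

theorem pf_ky : T_KY := by
  classical
  intro n r hr
  obtain ⟨hirr, htr, htri⟩ := hr
  let key : ℕ → ℕ := fun a => ((Finset.range n).filter (fun c => r c a)).card
  have hmono : ∀ a < n, ∀ b < n, r a b → key a < key b := by
    intro a ha b hb hab
    apply Finset.card_lt_card
    rw [Finset.ssubset_iff_of_subset]
    · exact ⟨a, by simp [ha, hab], by simp [hirr a ha]⟩
    · intro c hc
      simp only [Finset.mem_filter, Finset.mem_range] at hc ⊢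
      exact ⟨hc.1, htr c hc.1 a ha b hb hc.2 hab⟩
  refine ⟨key, ?_, ?_, ?_⟩
  · intro a ha
    have h1 : key a ≤ ((Finset.range n).erase a).card := by
      apply Finset.card_le_card
      intro c hc
      simp only [Finset.mem_filter, Finset.mem_range] at hc
      simp only [Finset.mem_erase, Finset.mem_range]
      refine ⟨?_, hc.1⟩
      rintro rfl
      exact hirr c hc.1 hc.2
    rw [Finset.card_erase_of_mem (Finset.mem_range.2 ha), Finset.card_range] at h1
    omega
  · intro a ha b hb hab
    by_contra hne
    rcases htri a ha b hb hne with h | h
    · have := hmono a ha b hb h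
      omega
    · have := hmono b hb a ha h
      omega
  · intro a ha b hb
    refine ⟨hmono a ha b hb, ?_⟩
    intro hk
    by_cases hne : a = b
    · subst hne
      omega
    rcases htri a ha b hb hne with h | h
    · exact h
    · have := hmono b hb a ha h
      omega

end Pool.Agent.H3.TW
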